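import Pool.Agent.Y42.AB.Stm
import Pool.Agent.H815.HF.Holland

/-!
# A countable lexicographic extension acts on the rationals
-/

set_option autoImplicit false

namespace Pool.Agent.Y409.AB

open Pool.Agent.Y42.AB Pool.Agent.H815.HF.HollandM

/-- an action on a countable total preorder gives an action on the rationals -/
theorem gen {A : Type} [Group A] {P : Type} [Countable P] [Nonempty P]
    (act : A → P → P) (h1 : ∀ p, act 1 p = p) (hm : ∀ a b p, act (a * b) p = act a (act b p))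
    (R : P → P → Prop) (hr : ∀ p, R p p) (ht : ∀ p q r, R p q → R q r → R p r)
    (htot : ∀ p q, R p q ∨ R q p) (hinv : ∀ a p q, R p q → R (act a p) (act a q)) :
    ∃ (ρ : A →* (ℚ ≃o ℚ)) (e : P → ℚ → ℚ), (∀ q, ∃ p s, e p s = q) ∧
      (∀ a p s, ρ a (e p s) = e (act a p) s) ∧
      (∀ p q s, R p q → e p s ≤ e q s) ∧ (∀ p q s t, ¬ R q p → e p s < e q t) := by
  classical
  let pre : Preorder P :=
    { le := R
      le_refl := hr
      le_trans := ht }
  have : @Std.Total P (· ≤ ·) := ⟨htot⟩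
  have hle : ∀ p q : P, p ≤ q ↔ R p q := fun _ _ => Iff.rfl
  let T0 := Antisymmetrization P (· ≤ ·)
  let mk : P → T0 := toAntisymmetrization (· ≤ ·)
  have hsurj : ∀ t : T0, ∃ p, mk p = t := fun t =>
    ⟨ofAntisymmetrization (· ≤ ·) t, toAntisymmetrization_ofAntisymmetrization (· ≤ ·) t⟩
  have : Countable T0 := (Function.Surjective.countable (f := mk) hsurj)
  have : Nonempty T0 := ⟨mk (Classical.arbitrary P)⟩
  let α : A → T0 → T0 := fun a =>
    OrderHom.antisymmetrization ⟨act a, fun p q h => hinv a p q h⟩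
  have hα : ∀ a p, α a (mk p) = mk (act a p) := fun a p => rfl
  have hα1 : ∀ t, α 1 t = t := by
    intro t
    obtain ⟨p, rfl⟩ := hsurj t
    rw [hα, h1]
  have hαm : ∀ a b t, α (a * b) t = α a (α b t) := by
    intro a b t
    obtain ⟨p, rfl⟩ := hsurj t
    rw [hα, hα, hα, hm]
  have hαmono : ∀ a, Monotone (α a) := fun a => OrderHom.monotone _
  have hαinj : ∀ a, Function.Injective (α a) := by
    intro a t u h
    have := congrArg (α a⁻¹) h
    rwa [← hαm, ← hαm, inv_mul_cancel, hα1, hα1] at this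
  have hαlt : ∀ a t u, t < u → α a t < α a u := fun a t u h =>
    lt_of_le_of_ne (hαmono a h.le) fun h' => h.ne (hαinj a h')
  have : Countable (T0 ×ₗ ℚ) := inferInstanceAs (Countable (T0 × ℚ))
  obtain ⟨E⟩ : Nonempty ((T0 ×ₗ ℚ) ≃o ℚ) := Order.iso_of_countable_dense _ _
  let β : A → (T0 ×ₗ ℚ) → (T0 ×ₗ ℚ) := fun a t => toLex (α a (ofLex t).1, (ofLex t).2)
  have hβmono : ∀ a t u, t ≤ u → β a t ≤ β a u := by
    intro a t u h
    rw [Prod.Lex.le_iff] at h ⊢
    rcases h with h | ⟨h, h'⟩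
    · exact Or.inl (hαlt a _ _ h)
    · exact Or.inr ⟨by simp only [β, ofLex_toLex]; rw [h], h'⟩
  have hβ1 : ∀ t, β 1 t = t := by
    intro t
    simp only [β, hα1]
    rfl
  have hβm : ∀ a b t, β (a * b) t = β a (β b t) := by
    intro a b t
    simp only [β, hαm]
    rfl
  let B : A → ((T0 ×ₗ ℚ) ≃o (T0 ×ₗ ℚ)) := fun a =>
    { toFun := β a
      invFun := β a⁻¹
      left_inv := by
        intro t
        rw [← hβm, inv_mul_cancel, hβ1]
      right_inv := by
        intro t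
        rw [← hβm, mul_inv_cancel, hβ1]
      map_rel_iff' := by
        intro t u
        refine ⟨fun h => ?_, fun h => hβmono a t u h⟩
        have := hβmono a⁻¹ _ _ h
        simp only [Equiv.coe_fn_mk] at this
        rwa [← hβm, ← hβm, inv_mul_cancel, hβ1, hβ1] at this }
  have hB : ∀ a t, B a t = β a t := fun a t => rfl
  let ρ : A →* (ℚ ≃o ℚ) :=
    { toFun := fun a => (E.symm.trans (B a)).trans E
      map_one' := by
        ext q
        simp only [OrderIso.trans_apply, hB, hβ1, OrderIso.apply_symm_apply]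
        rfl
      map_mul' := by
        intro a b
        ext q
        simp only [OrderIso.trans_apply, hB, RelIso.mul_apply, OrderIso.symm_apply_apply, hβm] }
  have hρ : ∀ a t, ρ a (E t) = E (β a t) := by
    intro a t
    change E (B a (E.symm (E t))) = _
    rw [OrderIso.symm_apply_apply]
    rfl
  refine ⟨ρ, fun p s => E (toLex (mk p, s)), ?_, ?_, ?_, ?_⟩
  · intro q
    obtain ⟨p, hp⟩ := hsurj (ofLex (E.symm q)).1
    refine ⟨p, (ofLex (E.symm q)).2, ?_⟩
    simp only [hp]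
    exact E.apply_symm_apply q
  · intro a p s
    rw [hρ]
    rfl
  · intro p q s h
    rw [OrderIso.le_iff_le, Prod.Lex.toLex_le_toLex]
    by_cases h' : R q p
    · right
      refine ⟨le_antisymm ?_ ?_, le_rfl⟩
      · exact toAntisymmetrization_le_toAntisymmetrization_iff.2 h
      · exact toAntisymmetrization_le_toAntisymmetrization_iff.2 h'
    · left
      exact toAntisymmetrization_lt_toAntisymmetrization_iff.2 (lt_iff_le_not_ge.2 ⟨h, h'⟩)
  · intro p q s t h
    rw [OrderIso.lt_iff_lt, Prod.Lex.toLex_lt_toLex]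
    left
    exact toAntisymmetrization_lt_toAntisymmetrization_iff.2
      (lt_iff_le_not_ge.2 ⟨(htot p q).resolve_right h, h⟩)

theorem t_CHAIN : S_CHAIN := by
  intro A _ _ _ _ _ V _ hV hlex
  classical
  -- elements above `1` in `V`
  obtain ⟨c0, hc0, hc01⟩ : ∃ c ∈ V, 1 < c := by
    obtain ⟨w, hw, hw1⟩ := V.bot_or_exists_ne_one.resolve_left hV
    have hpn := h170_posneg w
    have hpw : w ⊔ 1 = w * (w⁻¹ ⊔ 1) := by
      rw [mul_sup, mul_inv_cancel, mul_one, sup_comm]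
    by_cases hp : w ⊔ 1 ∈ V
    · have hn : w⁻¹ ⊔ 1 ∈ V := by
        have : w⁻¹ ⊔ 1 = w⁻¹ * (w ⊔ 1) := by rw [hpw, inv_mul_cancel_left]
        rw [this]
        exact V.mul_mem (V.inv_mem hw) hp
      by_cases h : w ≤ 1
      · refine ⟨_, hn, lt_of_le_of_ne le_sup_right fun h' => hw1 (le_antisymm h ?_)⟩
        have : w⁻¹ ≤ 1 := by
          rw [h']
          exact le_sup_left
        exact Left.inv_le_one_iff.1 this
      · refine ⟨_, hp, lt_of_le_of_ne le_sup_right fun h' => h ?_⟩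
        rw [h']
        exact le_sup_left
    · exfalso
      have hn : w⁻¹ ⊔ 1 ∉ V := by
        intro hn
        apply hp
        rw [hpw]
        exact V.mul_mem hw hn
      have hab : ∀ y : A, y ∉ V → 1 ≤ y → ∀ v ∈ V, v < y := by
        intro y hy hy1
        refine (hlex y hy).resolve_right fun h => ?_
        exact absurd (h 1 V.one_mem) (not_lt_of_ge hy1)
      have h2 : ∀ v ∈ V, v ≤ 1 := by
        intro v hv
        rw [← hpn]
        exact le_inf (hab _ hp le_sup_right v hv).le (hab _ hn le_sup_right v hv).le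
      exact hw1 (le_antisymm (h2 w hw) (Left.inv_le_one_iff.1 (h2 w⁻¹ (V.inv_mem hw))))
  have hab : ∀ y : A, y ∉ V → 1 ≤ y → ∀ v ∈ V, v < y := by
    intro y hy hy1
    refine (hlex y hy).resolve_right fun h => ?_
    exact absurd (h 1 V.one_mem) (not_lt_of_ge hy1)
  let MV : Submonoid A :=
    { carrier := {x | x ∈ V ∧ 1 ≤ x}
      one_mem' := ⟨V.one_mem, le_rfl⟩
      mul_mem' := fun h h' => ⟨V.mul_mem h.1 h'.1, one_le_mul h.2 h'.2⟩ }
  have hMV : ∀ a b : A, a ⊓ b = 1 → a ∈ MV ∨ b ∈ MV := by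
    intro a b h
    have ha : 1 ≤ a := by rw [← h]; exact inf_le_left
    have hb : 1 ≤ b := by rw [← h]; exact inf_le_right
    by_contra hcon
    push Not at hcon
    have ha' : a ∉ V := fun h' => hcon.1 ⟨h', ha⟩
    have hb' : b ∉ V := fun h' => hcon.2 ⟨h', hb⟩
    have : c0 ≤ a ⊓ b := le_inf (hab a ha' ha c0 hc0).le (hab b hb' hb c0 hc0).le
    rw [h] at this
    exact absurd this (not_le_of_gt hc01)
  have hex : ∀ c : {c : A // c ∈ V ∧ 1 < c}, ∃ M : Submonoid A, h170Cvx c.1 M ∧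
      ∀ a b : A, a ⊓ b = 1 → a ∈ M ∨ b ∈ M := fun c =>
    h170_prime c.1 (not_le_of_gt c.2.2) c.2.2.le
  choose M hM hMP using hex
  have hsub : ∀ c x, x ∈ M c → x ∈ MV := by
    intro c x hx
    have hx1 : 1 ≤ x := (hM c).1 x hx
    refine ⟨?_, hx1⟩
    by_contra hxV
    exact (hM c).2.2 ((hM c).2.1 _ _ c.2.2.le (hab x hxV hx1 c.1 c.2.1).le hx)
  have hRsub : ∀ c x y, h170R (M c) x y → h170R MV x y := by
    rintro c x y ⟨m, hm, h⟩
    exact ⟨m, hsub c m hm, h⟩
  obtain ⟨k, hk⟩ := Countable.exists_injective_nat {c : A // c ∈ V ∧ 1 < c}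
  let P := {c : A // c ∈ V ∧ 1 < c} × A
  let R : P → P → Prop := fun p q => h170R MV p.2 q.2 ∧
    (h170R MV q.2 p.2 → (k p.1 < k q.1 ∨ (p.1 = q.1 ∧ h170R (M p.1) p.2 q.2)))
  have hRc : ∀ c x y, R (c, x) (c, y) ↔ h170R (M c) x y := by
    intro c x y
    constructor
    · rintro ⟨h, h'⟩
      by_cases hyx : h170R MV y x
      · rcases h' hyx with h2 | h2
        · exact absurd h2 (lt_irrefl _)
        · exact h2.2
      · rcases h170R_total (M c) (hMP c) x y with h2 | h2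
        · exact h2
        · exact absurd (hRsub c _ _ h2) hyx
    · intro h
      exact ⟨hRsub c _ _ h, fun _ => Or.inr ⟨rfl, h⟩⟩
  have : Nonempty P := ⟨(⟨c0, hc0, hc01⟩, 1)⟩
  obtain ⟨ρ, e, he, hρ, hle, hlt⟩ := gen (A := A) (P := P) (fun a p => (p.1, a * p.2))
    (fun p => by simp) (fun a b p => by simp [mul_assoc]) R
    (fun p => ⟨h170R_refl MV _, fun _ => Or.inr ⟨rfl, h170R_refl _ _⟩⟩)
    (by
      rintro ⟨c, x⟩ ⟨d, y⟩ ⟨f, z⟩ ⟨h1, h2⟩ ⟨h3, h4⟩
      refine ⟨h170R_trans MV h1 h3, fun h5 => ?_⟩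
      have h6 : h170R MV y x := h170R_trans MV h3 h5
      have h7 : h170R MV z y := h170R_trans MV h5 h1
      rcases h2 h6 with h2 | ⟨h2, h2'⟩
      · rcases h4 h7 with h4 | ⟨h4, h4'⟩
        · exact Or.inl (h2.trans h4)
        · simp only at h4 h2 ⊢
          subst h4
          exact Or.inl h2
      · rcases h4 h7 with h4 | ⟨h4, h4'⟩
        · simp only at h2 h4 ⊢
          subst h2
          exact Or.inl h4
        · simp only at h2 h4 h2' h4' ⊢
          subst h2
          subst h4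
          exact Or.inr ⟨rfl, h170R_trans _ h2' h4'⟩)
    (by
      rintro ⟨c, x⟩ ⟨d, y⟩
      by_cases h1 : h170R MV x y
      · by_cases h2 : h170R MV y x
        · rcases lt_trichotomy (k c) (k d) with h3 | h3 | h3
          · exact Or.inl ⟨h1, fun _ => Or.inl h3⟩
          · have h4 := hk h3
            subst h4
            rcases h170R_total (M c) (hMP c) x y with h5 | h5
            · exact Or.inl ⟨h1, fun _ => Or.inr ⟨rfl, h5⟩⟩
            · exact Or.inr ⟨h2, fun _ => Or.inr ⟨rfl, h5⟩⟩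
          · exact Or.inr ⟨h2, fun _ => Or.inl h3⟩
        · exact Or.inl ⟨h1, fun h => absurd h h2⟩
      · rcases h170R_total MV hMV x y with h2 | h2
        · exact absurd h2 h1
        · exact Or.inr ⟨h2, fun h => absurd h h1⟩)
    (by
      rintro a ⟨c, x⟩ ⟨d, y⟩ ⟨h1, h2⟩
      refine ⟨(h170R_mul MV a x y).2 h1, fun h3 => ?_⟩
      rcases h2 ((h170R_mul MV a y x).1 h3) with h2 | ⟨h2, h2'⟩
      · exact Or.inl h2
      · exact Or.inr ⟨h2, (h170R_mul _ a x y).2 h2'⟩)
  have heq : ∀ p q s, R p q → R q p → e p s = e q s := fun p q s h h' =>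
    le_antisymm (hle p q s h) (hle q p s h')
  have hRV : ∀ (c d) (x y : A), ¬ h170R MV y x → ¬ R (d, y) (c, x) := fun c d x y h h' => h h'.1
  have hsup : ∀ (x y : A) (q : ℚ), ρ (x ⊔ y) q = max (ρ x q) (ρ y q) := by
    intro x y q
    obtain ⟨⟨c, z⟩, s, rfl⟩ := he q
    rw [hρ, hρ, hρ]
    simp only
    have hs : ∀ y z : A, h170R (M c) y z → e (c, y ⊔ z) s = e (c, z) s := by
      rintro y z ⟨m, hm, h⟩
      refine heq _ _ _ ((hRc _ _ _).2 ⟨m, hm, ?_⟩) ((hRc _ _ _).2 (h170R_of_le _ le_sup_right))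
      exact sup_le h (le_mul_of_one_le_right' ((hM c).1 m hm))
    rw [sup_mul]
    rcases h170R_total (M c) (hMP c) (x * z) (y * z) with h | h
    · rw [hs _ _ h, max_eq_right (hle _ _ _ ((hRc _ _ _).2 h))]
    · rw [sup_comm, hs _ _ h, max_eq_left (hle _ _ _ ((hRc _ _ _).2 h))]
  have hinf : ∀ (x y : A) (q : ℚ), ρ (x ⊓ y) q = min (ρ x q) (ρ y q) := by
    intro x y q
    obtain ⟨⟨c, z⟩, s, rfl⟩ := he q
    rw [hρ, hρ, hρ]
    simp only
    have hs : ∀ y z : A, h170R (M c) y z → e (c, y ⊓ z) s = e (c, y) s := by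
      rintro y z ⟨m, hm, h⟩
      refine heq _ _ _ ((hRc _ _ _).2 (h170R_of_le _ inf_le_left)) ((hRc _ _ _).2 ⟨m, hm, ?_⟩)
      rw [inf_mul]
      exact le_inf (le_mul_of_one_le_right' ((hM c).1 m hm)) h
    rw [inf_mul]
    rcases h170R_total (M c) (hMP c) (x * z) (y * z) with h | h
    · rw [hs _ _ h, min_eq_left (hle _ _ _ ((hRc _ _ _).2 h))]
    · rw [inf_comm, hs _ _ h, min_eq_right (hle _ _ _ ((hRc _ _ _).2 h))]
  -- an element above `V` moves every fibre up
  have hup : ∀ g : A, g ∉ V → 1 < g → ∀ y, ¬ h170R MV (g * y) y := by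
    rintro g hg hg1 y ⟨m, hm, h⟩
    have h2 : g ≤ y * m * y⁻¹ := by
      have := mul_le_mul_left h y⁻¹
      rwa [mul_inv_cancel_right] at this
    have h3 : y * m * y⁻¹ ∈ V := Subgroup.Normal.conj_mem inferInstance m hm.1 y
    exact absurd h2 (not_le_of_gt (hab g hg hg1.le _ h3))
  have hg : ∀ g : A, g ∉ V → 1 < g → ∀ q, q < ρ g q := by
    intro g hg hg1 q
    obtain ⟨⟨c, z⟩, s, rfl⟩ := he q
    rw [hρ]
    exact hlt _ _ _ _ (hRV _ _ _ _ (hup g hg hg1 z))
  -- an element `c` of `V` moves the component `c`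
  have hcomp : ∀ (b : A) (z : A) (hc : z⁻¹ * b * z ∈ V ∧ 1 < z⁻¹ * b * z),
      ¬ h170R (M ⟨z⁻¹ * b * z, hc⟩) (b * z) z := by
    rintro b z hc ⟨m, hm, h⟩
    refine (hM ⟨z⁻¹ * b * z, hc⟩).2.2 ((hM ⟨z⁻¹ * b * z, hc⟩).2.1 _ m hc.2.le ?_ hm)
    have := mul_le_mul_right h z⁻¹
    rwa [inv_mul_cancel_left, ← mul_assoc] at this
  refine ⟨ρ, ?_, hsup, hinf, hg, ?_⟩
  · have hpos : ∀ d : A, 1 < d → ρ d ≠ 1 := by
      intro d hd h
      by_cases hdV : d ∈ V
      · have hc : (1 : A)⁻¹ * d * 1 ∈ V ∧ 1 < (1 : A)⁻¹ * d * 1 := by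
          simpa using And.intro hdV hd
        have h2 := hcomp d 1 hc
        have h3 := hlt (⟨_, hc⟩, 1) (⟨_, hc⟩, d * 1) 0 0 (fun h => h2 ((hRc _ _ _).1 h))
        have h4 := hρ d (⟨_, hc⟩, 1) 0
        simp only at h4
        rw [← h4, h] at h3
        exact absurd h3 (lt_irrefl _)
      · have h2 := hg d hdV hd 0
        rw [h] at h2
        exact absurd h2 (lt_irrefl _)
    rw [injective_iff_map_eq_one]
    intro x hx
    have hxp : ∀ x : A, ρ x = 1 → x ≤ 1 := by
      intro x hx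
      by_contra hx1
      have hd : 1 < x ⊔ 1 := lt_of_le_of_ne le_sup_right fun h' => hx1 (by
        rw [h']
        exact le_sup_left)
      refine hpos _ hd ?_
      ext q
      rw [hsup, hx, map_one, max_self]
    refine le_antisymm (hxp x hx) (Left.inv_le_one_iff.1 (hxp x⁻¹ ?_))
    rw [map_inv, hx, inv_one]
  · intro g hgV hg1 b hb hb1 q
    obtain ⟨⟨c, y⟩, s, rfl⟩ := he q
    have hc : (g * y)⁻¹ * b * (g * y) ∈ V ∧ 1 < (g * y)⁻¹ * b * (g * y) := by
      constructor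
      · have := Subgroup.Normal.conj_mem (inferInstance : V.Normal) b hb (g * y)⁻¹
        rwa [inv_inv] at this
      · have h2 := mul_lt_mul_of_lt_of_le hb1 (le_refl (g * y))
        rw [one_mul] at h2
        have h3 := mul_lt_mul_right h2 (g * y)⁻¹
        rwa [inv_mul_cancel, ← mul_assoc] at h3
    refine ⟨e (⟨_, hc⟩, g * y) s, ?_, ?_, ?_⟩
    · exact (hlt _ _ _ _ (hRV _ _ _ _ (hup g hgV hg1 y))).le
    · rw [hρ, hρ]
      exact hlt _ _ _ _ (hRV _ _ _ _ (hup g hgV hg1 (g * y)))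
    · rw [hρ]
      exact hlt _ _ _ _ (fun h => hcomp b (g * y) hc ((hRc _ _ _).1 h))

end Pool.Agent.Y409.AB
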