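import Pool.Agent.Y42.AB.Stm2
import Pool.Agent.H815.HF.Holland

/-!
# Finitely generated abelian lattice-ordered groups
-/

set_option autoImplicit false

namespace Pool.Agent.Y409.AB

open Pool.Agent.Y42.AB Pool.Agent.H815.HF.HollandM

section Dich

variable {A : Type} [CommGroup A] [Lattice A] [MulLeftMono A]

/-- convex sublattice subgroups -/
structure Idl (I : Subgroup A) : Prop where
  conv : ∀ x y, 1 ≤ x → x ≤ y → y ∈ I → x ∈ I
  lat : ∀ x ∈ I, x ⊔ 1 ∈ I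

lemma decomp (t : A) : t * (t⁻¹ ⊔ 1) = t ⊔ 1 := by
  rw [mul_sup, mul_inv_cancel, mul_one, sup_comm]

lemma parts (I : Subgroup A) {x : A} (hx : x ∉ I) : x ⊔ 1 ∉ I ∨ x⁻¹ ⊔ 1 ∉ I := by
  by_contra h
  push Not at h
  have := decomp x
  apply hx
  have h2 : x = (x ⊔ 1) * (x⁻¹ ⊔ 1)⁻¹ := by rw [← this, mul_inv_cancel_right]
  rw [h2]
  exact I.mul_mem h.1 (I.inv_mem h.2)

lemma eq_one_of_parts {x : A} (h1 : x ⊔ 1 = 1) (h2 : x⁻¹ ⊔ 1 = 1) : x = 1 := by
  have := decomp x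
  rwa [h1, h2, mul_one] at this

lemma one_le_mul_inv' {x y : A} : 1 ≤ x * y⁻¹ ↔ y ≤ x := by
  rw [le_mul_inv_iff_mul_le, one_mul]

omit [MulLeftMono A] in
lemma inf_one_of_le {x y s : A} (hx : 1 ≤ x) (hs : 1 ≤ s) (hxy : x ≤ y) (hy : y ⊓ s = 1) :
    x ⊓ s = 1 :=
  le_antisymm (hy ▸ inf_le_inf_right s hxy) (le_inf hx hs)

lemma inf_mul_one {u v s : A} (hu : 1 ≤ u) (hv : 1 ≤ v) (hs : 1 ≤ s) (h1 : u ⊓ s = 1)
    (h2 : v ⊓ s = 1) : (u * v) ⊓ s = 1 := by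
  refine le_antisymm ?_ (le_inf (one_le_mul hu hv) hs)
  have := h170_inf_mul_le u v s hu hv hs
  rwa [h1, h2, mul_one] at this

lemma sup_mul_le (x y : A) : x * y ⊔ 1 ≤ (x ⊔ 1) * (y ⊔ 1) :=
  sup_le (mul_le_mul' le_sup_left le_sup_left) (one_le_mul le_sup_right le_sup_right)

/-- polars -/
def Pl (S : Set A) : Subgroup A where
  carrier := {x | ∀ s ∈ S, 1 ≤ s → (x ⊔ 1) ⊓ s = 1 ∧ (x⁻¹ ⊔ 1) ⊓ s = 1}
  one_mem' := by
    intro s _ hs1
    simp [hs1]
  mul_mem' := by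
    intro x y hx hy s hs hs1
    obtain ⟨h1, h2⟩ := hx s hs hs1
    obtain ⟨h3, h4⟩ := hy s hs hs1
    constructor
    · exact inf_one_of_le le_sup_right hs1 (sup_mul_le x y)
        (inf_mul_one le_sup_right le_sup_right hs1 h1 h3)
    · rw [mul_inv]
      exact inf_one_of_le le_sup_right hs1 (sup_mul_le x⁻¹ y⁻¹)
        (inf_mul_one le_sup_right le_sup_right hs1 h2 h4)
  inv_mem' := by
    intro x hx s hs hs1
    obtain ⟨h1, h2⟩ := hx s hs hs1
    rw [inv_inv]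
    exact ⟨h2, h1⟩

lemma mem_Pl_pos {S : Set A} {x : A} (hx : 1 ≤ x) : x ∈ Pl S ↔ ∀ s ∈ S, 1 ≤ s → x ⊓ s = 1 := by
  have h1 : x ⊔ 1 = x := sup_eq_left.2 hx
  have h2 : x⁻¹ ⊔ 1 = 1 := sup_eq_right.2 (Left.inv_le_one_iff.2 hx)
  constructor
  · intro h s hs hs1
    have := (h s hs hs1).1
    rwa [h1] at this
  · intro h s hs hs1
    rw [h1, h2]
    exact ⟨h s hs hs1, inf_eq_left.2 hs1⟩

lemma Pl_idl (S : Set A) : Idl (Pl S) := by
  constructor
  · intro x y hx hxy hy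
    rw [mem_Pl_pos hx]
    rw [mem_Pl_pos (hx.trans hxy)] at hy
    intro s hs hs1
    exact inf_one_of_le hx hs1 hxy (hy s hs hs1)
  · intro x hx
    rw [mem_Pl_pos le_sup_right]
    intro s hs hs1
    exact (hx s hs hs1).1

lemma Pl_disj {P : Subgroup A} (hP : Idl P) {x : A} (h1 : x ∈ P) (h2 : x ∈ Pl (P : Set A)) :
    x = 1 := by
  have key : ∀ x : A, x ∈ P → x ∈ Pl (P : Set A) → x ⊔ 1 = 1 := by
    intro x h1 h2
    have := (mem_Pl_pos le_sup_right).1 ((Pl_idl _).lat x h2) _ (hP.lat x h1) le_sup_right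
    rwa [inf_idem] at this
  exact eq_one_of_parts (key x h1 h2) (key x⁻¹ (P.inv_mem h1) ((Pl _).inv_mem h2))

lemma mem_Pl_Pl {a : A} (ha : 1 ≤ a) : a ∈ Pl (Pl {a} : Set A) := by
  rw [mem_Pl_pos ha]
  intro s hs hs1
  rw [inf_comm]
  exact (mem_Pl_pos hs1).1 hs a rfl ha

lemma Pl_anti {a c : A} (hc : 1 ≤ c) (h : c ≤ a) : Pl {a} ≤ Pl ({c} : Set A) := by
  intro x hx s hs hs1
  rw [Set.mem_singleton_iff] at hs
  subst hs
  obtain ⟨h1, h2⟩ := hx a rfl (hc.trans h)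
  constructor
  · rw [inf_comm]
    exact inf_one_of_le hc le_sup_right h (by rwa [inf_comm])
  · rw [inf_comm]
    exact inf_one_of_le hc le_sup_right h (by rwa [inf_comm])

lemma sup_idl {P Q : Subgroup A} (hP : Idl P) (hQ : Idl Q) : Idl (P ⊔ Q) := by
  have key : ∀ x y, 1 ≤ x → x ≤ y ⊔ 1 → y ∈ P ⊔ Q → x ∈ P ⊔ Q := by
    intro x w hx hxw hw
    obtain ⟨p, hp, q, hq, rfl⟩ := Subgroup.mem_sup.1 hw
    have h1 : x ≤ (p ⊔ 1) * (q ⊔ 1) := hxw.trans (sup_mul_le p q)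
    have h2 : x ⊓ (p ⊔ 1) ∈ P := hP.conv _ _ (le_inf hx le_sup_right) inf_le_right (hP.lat p hp)
    have h3 : x * (x ⊓ (p ⊔ 1))⁻¹ = 1 ⊔ x * (p ⊔ 1)⁻¹ := by
      rw [inv_inf, mul_sup, mul_inv_cancel]
    have h4 : x * (x ⊓ (p ⊔ 1))⁻¹ ∈ Q := by
      rw [h3]
      refine hQ.conv _ _ le_sup_left (sup_le le_sup_right ?_) (hQ.lat q hq)
      rw [mul_inv_le_iff_le_mul, mul_comm (q ⊔ 1)]
      exact h1
    exact Subgroup.mem_sup.2 ⟨_, h2, _, h4, by rw [mul_comm, inv_mul_cancel_right]⟩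
  exact ⟨fun x y hx hxy hy => key x y hx (hxy.trans le_sup_left) hy,
    fun x hx => key _ x le_sup_right le_rfl hx⟩

/-- maximal proper ones -/
structure Mx (M : Subgroup A) : Prop where
  idl : Idl M
  ne : M ≠ ⊤
  max : ∀ J, Idl J → J ≠ ⊤ → M ≤ J → J = M

/-- the ideal generated by an ideal and a positive element -/
lemma gen_idl {M : Subgroup A} (hM : Mx M) {a : A} (ha : 1 ≤ a) (haM : a ∉ M) (x : A) :
    ∃ m ∈ M, 1 ≤ m ∧ ∃ n : ℕ, x ≤ m * a ^ n := by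
  let N : Subgroup A :=
    { carrier := {x | ∃ m ∈ M, 1 ≤ m ∧ ∃ n : ℕ, x ≤ m * a ^ n ∧ x⁻¹ ≤ m * a ^ n}
      one_mem' := ⟨1, M.one_mem, le_rfl, 0, by simp⟩
      mul_mem' := by
        rintro x y ⟨m, hm, hm1, n, h1, h2⟩ ⟨m', hm', hm1', n', h1', h2'⟩
        refine ⟨m * m', M.mul_mem hm hm', one_le_mul hm1 hm1', n + n', ?_, ?_⟩
        · rw [pow_add, mul_mul_mul_comm]
          exact mul_le_mul' h1 h1'
        · rw [pow_add, mul_mul_mul_comm, mul_inv]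
          exact mul_le_mul' h2 h2'
      inv_mem' := by
        rintro x ⟨m, hm, hm1, n, h1, h2⟩
        exact ⟨m, hm, hm1, n, h2, by rwa [inv_inv]⟩ }
  have hpos : ∀ (m : A) (n : ℕ), 1 ≤ m → 1 ≤ m * a ^ n := fun m n hm =>
    one_le_mul hm (one_le_pow_of_one_le' ha n)
  have hN : Idl N := by
    constructor
    · rintro x y hx hxy ⟨m, hm, hm1, n, h1, h2⟩
      exact ⟨m, hm, hm1, n, hxy.trans h1, (Left.inv_le_one_iff.2 hx).trans (hpos m n hm1)⟩
    · rintro x ⟨m, hm, hm1, n, h1, h2⟩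
      exact ⟨m, hm, hm1, n, sup_le h1 (hpos m n hm1),
        (Left.inv_le_one_iff.2 le_sup_right).trans (hpos m n hm1)⟩
  have hMN : M ≤ N := by
    intro m hm
    refine ⟨(m ⊔ 1) * (m⁻¹ ⊔ 1), M.mul_mem (hM.idl.lat _ hm) (hM.idl.lat _ (M.inv_mem hm)),
      one_le_mul le_sup_right le_sup_right, 0, ?_, ?_⟩
    · rw [pow_zero, mul_one]
      exact le_sup_left.trans (le_mul_of_one_le_right' le_sup_right)
    · rw [pow_zero, mul_one]
      exact le_sup_left.trans (le_mul_of_one_le_left' le_sup_right)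
  have haN : a ∈ N := ⟨1, M.one_mem, le_rfl, 1, by simp,
    (Left.inv_le_one_iff.2 ha).trans (hpos 1 1 le_rfl)⟩
  have hNt : N = ⊤ := by
    by_contra h
    have := hM.max N hN h hMN
    rw [this] at haN
    exact haM haN
  have hx : x ∈ N := by rw [hNt]; exact Subgroup.mem_top x
  obtain ⟨m, hm, hm1, n, h1, -⟩ := hx
  exact ⟨m, hm, hm1, n, h1⟩

lemma Mx.prime {M : Subgroup A} (hM : Mx M) {a b : A} (h : a ⊓ b = 1) : a ∈ M ∨ b ∈ M := by
  have ha : 1 ≤ a := by rw [← h]; exact inf_le_left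
  have hb : 1 ≤ b := by rw [← h]; exact inf_le_right
  by_cases haM : a ∈ M
  · exact Or.inl haM
  right
  obtain ⟨m, hm, hm1, n, h1⟩ := gen_idl hM ha haM b
  have h2 : ∀ n : ℕ, a ^ n ⊓ b = 1 := by
    intro n
    induction n with
    | zero => rw [pow_zero]; exact inf_eq_left.2 hb
    | succ n ih =>
      rw [pow_succ]
      exact inf_mul_one (one_le_pow_of_one_le' ha n) ha hb ih h
  have h3 : b ≤ (m ⊓ b) * (a ^ n ⊓ b) := by
    refine le_trans (le_inf h1 le_rfl) ?_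
    exact h170_inf_mul_le m (a ^ n) b hm1 (one_le_pow_of_one_le' ha n) hb
  rw [h2, mul_one] at h3
  exact hM.idl.conv b m hb (h3.trans inf_le_left) hm

lemma Mx.inf_notMem {M : Subgroup A} (hM : Mx M) {a b : A} (ha : a ∉ M) (hb : b ∉ M) :
    a ⊓ b ∉ M := by
  intro h
  have h1 : (a * (a ⊓ b)⁻¹) ⊓ (b * (a ⊓ b)⁻¹) = 1 := by
    rw [← inf_mul, mul_inv_cancel]
  rcases hM.prime h1 with h2 | h2
  · apply ha
    have := M.mul_mem h2 h
    rwa [inv_mul_cancel_right] at this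
  · apply hb
    have := M.mul_mem h2 h
    rwa [inv_mul_cancel_right] at this

omit [Lattice A] [MulLeftMono A] in
lemma exmax [Group.FG A] (p : Subgroup A → Prop) (I0 : Subgroup A) (h : p I0) :
    ∃ I, p I ∧ I0 ≤ I ∧ ∀ J, p J → I ≤ J → J = I := by
  have hF : Module.Finite ℤ (Additive A) := Module.Finite.iff_addGroup_fg.2 inferInstance
  have hN : IsNoetherian ℤ (Additive A) := isNoetherian_of_isNoetherianRing_of_finite ℤ _
  have hW : WellFoundedGT (Submodule ℤ (Additive A)) := isNoetherian_iff'.1 hN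
  let e : Subgroup A ≃o Submodule ℤ (Additive A) :=
    Subgroup.toAddSubgroup.trans AddSubgroup.toIntSubmodule
  have hW2 : WellFoundedGT (Subgroup A) := e.strictMono.wellFoundedGT
  obtain ⟨I, ⟨hI, hI0⟩, hmin⟩ := hW2.wf.has_min {I | p I ∧ I0 ≤ I} ⟨I0, h, le_rfl⟩
  refine ⟨I, hI, hI0, fun J hJ hIJ => ?_⟩
  by_contra hne
  exact hmin J ⟨hJ, hI0.trans hIJ⟩ (lt_of_le_of_ne hIJ (Ne.symm hne))

omit [MulLeftMono A] in
lemma exMx [Group.FG A] (I0 : Subgroup A) (h : Idl I0) (h' : I0 ≠ ⊤) : ∃ M, Mx M ∧ I0 ≤ M := by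
  obtain ⟨M, ⟨h1, h2⟩, h3, h4⟩ := exmax (fun I : Subgroup A => Idl I ∧ I ≠ ⊤) I0 ⟨h, h'⟩
  exact ⟨M, ⟨h1, h2, fun J hJ hJ' hMJ => h4 J ⟨hJ, hJ'⟩ hMJ⟩, h3⟩

lemma exists_a [Group.FG A] {M : Subgroup A} (hM : Mx M) : ∃ a : A, 1 ≤ a ∧ a ∉ M ∧
    ∀ b : A, 1 ≤ b → b ∉ M → Pl {b} ≤ Pl ({a} : Set A) := by
  obtain ⟨b0, hb0, hb0M⟩ : ∃ b : A, 1 ≤ b ∧ b ∉ M := by
    obtain ⟨x, hx⟩ : ∃ x, x ∉ M := by
      by_contra hcon
      push Not at hcon
      exact hM.ne ((Subgroup.eq_top_iff' M).2 hcon)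
    rcases parts M hx with h | h
    · exact ⟨_, le_sup_right, h⟩
    · exact ⟨_, le_sup_right, h⟩
  obtain ⟨I, ⟨a, ha, haM, rfl⟩, -, hmax⟩ := exmax
    (fun I : Subgroup A => ∃ b : A, 1 ≤ b ∧ b ∉ M ∧ Pl {b} = I) (Pl {b0}) ⟨b0, hb0, hb0M, rfl⟩
  refine ⟨a, ha, haM, fun b hb hbM => ?_⟩
  have hc : 1 ≤ a ⊓ b := le_inf ha hb
  have h1 := hmax (Pl {a ⊓ b}) ⟨_, hc, hM.inf_notMem haM hbM, rfl⟩ (Pl_anti hc inf_le_left)
  rw [← h1]
  exact Pl_anti hc inf_le_right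

lemma sep {M N : Subgroup A} (hM : Mx M) (hN : Mx N) (hne : M ≠ N) :
    ∃ y z : A, 1 ≤ y ∧ 1 ≤ z ∧ y ∉ M ∧ z ∉ N ∧ y ⊓ z = 1 := by
  have key : ∀ M N : Subgroup A, Mx M → Mx N → M ≠ N → ∃ n : A, 1 ≤ n ∧ n ∈ N ∧ n ∉ M := by
    intro M N hM hN hne
    obtain ⟨x, hx, hxM⟩ : ∃ x ∈ N, x ∉ M := by
      by_contra hcon
      push Not at hcon
      exact hne (hN.max M hM.idl hM.ne hcon)
    rcases parts M hxM with h | h
    · exact ⟨_, le_sup_right, hN.idl.lat _ hx, h⟩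
    · exact ⟨_, le_sup_right, hN.idl.lat _ (N.inv_mem hx), h⟩
  obtain ⟨n, hn1, hnN, hnM⟩ := key M N hM hN hne
  obtain ⟨m, hm1, hmM, hmN⟩ := key N M hN hM hne.symm
  have hc1 : 1 ≤ n ⊓ m := le_inf hn1 hm1
  have hcM : n ⊓ m ∈ M := hM.idl.conv _ _ hc1 inf_le_right hmM
  have hcN : n ⊓ m ∈ N := hN.idl.conv _ _ hc1 inf_le_left hnN
  refine ⟨n * (n ⊓ m)⁻¹, m * (n ⊓ m)⁻¹, ?_, ?_, ?_, ?_, ?_⟩
  · rw [← mul_inv_cancel (n ⊓ m)]
    exact mul_le_mul_left inf_le_left _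
  · rw [← mul_inv_cancel (n ⊓ m)]
    exact mul_le_mul_left inf_le_right _
  · intro h
    have := M.mul_mem h hcM
    rw [inv_mul_cancel_right] at this
    exact hnM this
  · intro h
    have := N.mul_mem h hcN
    rw [inv_mul_cancel_right] at this
    exact hmN this
  · rw [← inf_mul, mul_inv_cancel]

lemma Idl.sup {I : Subgroup A} (hI : Idl I) {x y : A} (hx : x ∈ I) (hy : y ∈ I) : x ⊔ y ∈ I := by
  have h1 : x ⊔ y = (x * y⁻¹ ⊔ 1) * y := by rw [sup_mul, inv_mul_cancel_right, one_mul]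
  rw [h1]
  exact I.mul_mem (hI.lat _ (I.mul_mem hx (I.inv_mem hy))) hy

lemma Idl.inf {I : Subgroup A} (hI : Idl I) {x y : A} (hx : x ∈ I) (hy : y ∈ I) : x ⊓ y ∈ I := by
  have h1 : x ⊓ y = (x⁻¹ ⊔ y⁻¹)⁻¹ := by rw [inv_sup, inv_inv, inv_inv]
  rw [h1]
  exact I.inv_mem (hI.sup (I.inv_mem hx) (I.inv_mem hy))

theorem product (P Q : Subgroup A) (hP : Idl P) (hQ : Idl Q)
    (hPQ : ∀ x, x ∈ P → x ∈ Q → x = 1) (hsup : P ⊔ Q = ⊤) (hP1 : P ≠ ⊥) (hQ1 : Q ≠ ⊥) :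
    ∃ (A₁ A₂ : Type) (_ : Group A₁) (_ : Lattice A₁) (_ : MulLeftMono A₁)
      (_ : MulRightMono A₁) (_ : Group A₂) (_ : Lattice A₂) (_ : MulLeftMono A₂)
      (_ : MulRightMono A₂) (e : A ≃* A₁ × A₂), Nontrivial A₁ ∧ Nontrivial A₂ ∧
      (∀ x y, e (x ⊓ y) = e x ⊓ e y) ∧ (∀ x y, e (x ⊔ y) = e x ⊔ e y) := by
  let L1 : Lattice P := Subtype.lattice (P := fun x => x ∈ P) (fun x y hx hy => hP.sup hx hy)
    (fun x y hx hy => hP.inf hx hy)
  let L2 : Lattice Q := Subtype.lattice (P := fun x => x ∈ Q) (fun x y hx hy => hQ.sup hx hy)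
    (fun x y hx hy => hQ.inf hx hy)
  let φ : P × Q →* A := MonoidHom.coprod P.subtype Q.subtype
  have hφ : ∀ z : P × Q, φ z = (z.1 : A) * (z.2 : A) := fun z => rfl
  have h1 : ∀ z : P × Q, 1 ≤ φ z → 1 ≤ (z.1 : A) ∧ 1 ≤ (z.2 : A) := by
    rintro ⟨⟨p, hp⟩, ⟨q, hq⟩⟩ h
    rw [hφ] at h
    simp only at h ⊢
    constructor
    · have h2 : p⁻¹ ≤ q := by
        rw [inv_le_iff_one_le_mul']
        exact h
      have h3 : p⁻¹ ⊔ 1 ∈ Q := hQ.conv _ _ le_sup_right (sup_le_sup_right h2 1) (hQ.lat q hq)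
      have h4 := hPQ _ (hP.lat _ (P.inv_mem hp)) h3
      have h5 : p⁻¹ ≤ 1 := by
        rw [← h4]
        exact le_sup_left
      exact Left.inv_le_one_iff.1 h5
    · have h2 : q⁻¹ ≤ p := by
        rw [inv_le_iff_one_le_mul]
        exact h
      have h3 : q⁻¹ ⊔ 1 ∈ P := hP.conv _ _ le_sup_right (sup_le_sup_right h2 1) (hP.lat p hp)
      have h4 := hPQ _ h3 (hQ.lat _ (Q.inv_mem hq))
      have h5 : q⁻¹ ≤ 1 := by
        rw [← h4]
        exact le_sup_left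
      exact Left.inv_le_one_iff.1 h5
  have hle : ∀ z w : P × Q, φ z ≤ φ w ↔ z ≤ w := by
    intro z w
    constructor
    · intro h
      have h2 : 1 ≤ φ (w * z⁻¹) := by
        rw [map_mul, map_inv]
        exact one_le_mul_inv'.2 h
      obtain ⟨h3, h4⟩ := h1 _ h2
      refine ⟨?_, ?_⟩
      · have : 1 ≤ (w.1 : A) * (z.1 : A)⁻¹ := h3
        exact (one_le_mul_inv'.1 this : (z.1 : A) ≤ w.1)
      · have : 1 ≤ (w.2 : A) * (z.2 : A)⁻¹ := h4
        exact (one_le_mul_inv'.1 this : (z.2 : A) ≤ w.2)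
    · rintro ⟨h2, h3⟩
      rw [hφ, hφ]
      exact mul_le_mul' h2 h3
  have hinj : Function.Injective φ := by
    intro z w h
    exact le_antisymm ((hle z w).1 h.le) ((hle w z).1 h.ge)
  have hsurj : Function.Surjective φ := by
    intro x
    have hx : x ∈ P ⊔ Q := by
      rw [hsup]
      exact Subgroup.mem_top x
    obtain ⟨p, hp, q, hq, h⟩ := Subgroup.mem_sup.1 hx
    exact ⟨(⟨p, hp⟩, ⟨q, hq⟩), h⟩
  let Φ : P × Q ≃* A := MulEquiv.ofBijective φ ⟨hinj, hsurj⟩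
  let E : P × Q ≃o A := { toEquiv := Φ.toEquiv, map_rel_iff' := fun {z w} => hle z w }
  refine ⟨P, Q, inferInstance, L1, ⟨fun x y z h => ?_⟩, ⟨fun x y z h => ?_⟩, inferInstance, L2,
    ⟨fun x y z h => ?_⟩, ⟨fun x y z h => ?_⟩, Φ.symm, (Subgroup.nontrivial_iff_ne_bot P).2 hP1,
    (Subgroup.nontrivial_iff_ne_bot Q).2 hQ1, fun x y => ?_, fun x y => ?_⟩
  · exact mul_le_mul_right (α := A) h _
  · exact mul_le_mul_left (α := A) h _
  · exact mul_le_mul_right (α := A) h _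
  · exact mul_le_mul_left (α := A) h _
  · exact E.symm.map_inf x y
  · exact E.symm.map_sup x y

end Dich

theorem t_DICH : S_DICH := by
  intro A _ _ _ _ _
  have hbot : Idl (⊥ : Subgroup A) := by
    constructor
    · intro x y hx hxy hy
      rw [Subgroup.mem_bot] at hy ⊢
      rw [hy] at hxy
      exact le_antisymm hxy hx
    · intro x hx
      rw [Subgroup.mem_bot] at hx ⊢
      rw [hx, sup_idem]
  obtain ⟨M, hM, -⟩ := exMx (⊥ : Subgroup A) hbot bot_ne_top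
  obtain ⟨a, ha, haM, hamax⟩ := exists_a hM
  have hJ : Pl {a} ⊔ Pl (Pl {a} : Set A) = ⊤ := by
    by_contra h
    obtain ⟨N, hN, hJN⟩ := exMx _ (sup_idl (Pl_idl _) (Pl_idl _)) h
    have haN : a ∈ N := hJN (Subgroup.mem_sup_right (mem_Pl_Pl ha))
    have hne : M ≠ N := by
      rintro rfl
      exact haM haN
    obtain ⟨y, z, hy, hz, hyM, hzN, hyz⟩ := sep hM hN hne
    apply hzN
    refine hJN (Subgroup.mem_sup_left (hamax y hy hyM ?_))
    rw [mem_Pl_pos hz]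
    intro s hs _
    rw [Set.mem_singleton_iff.1 hs, inf_comm]
    exact hyz
  by_cases hP : Pl ({a} : Set A) = ⊥
  · have hcmp : ∀ x : A, x ∉ M → 1 ≤ x ∨ x ≤ 1 := by
      intro x hx
      have key : ∀ b c : A, 1 ≤ b → 1 ≤ c → b ∉ M → b ⊓ c = 1 → c = 1 := by
        intro b c hb hc hbM hbc
        have h1 : c ∈ Pl ({b} : Set A) := by
          rw [mem_Pl_pos hc]
          intro s hs _
          rw [Set.mem_singleton_iff.1 hs, inf_comm]
          exact hbc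
        have h2 := hamax b hb hbM h1
        rw [hP] at h2
        exact Subgroup.mem_bot.1 h2
      rcases parts M hx with h | h
      · left
        have h2 := key _ _ le_sup_right le_sup_right h (h170_posneg x)
        have h3 : x⁻¹ ≤ 1 := by
          rw [← h2]
          exact le_sup_left
        exact Left.inv_le_one_iff.1 h3
      · right
        have h2 := key _ _ le_sup_right le_sup_right h (by rw [inf_comm]; exact h170_posneg x)
        rw [← h2]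
        exact le_sup_left
    by_cases hMb : M = ⊥
    · left
      subst hMb
      refine ⟨fun x y => ?_, fun x y hy => ?_⟩
      · by_cases h : x * y⁻¹ = 1
        · left
          exact (mul_inv_eq_one.1 h).le
        · rcases hcmp (x * y⁻¹) (by rwa [Subgroup.mem_bot]) with h | h
          · right
            exact one_le_mul_inv'.1 h
          · left
            exact mul_inv_le_one_iff.1 h
      · obtain ⟨m, hm, -, n, h⟩ := gen_idl hM hy.le (by rw [Subgroup.mem_bot]; exact hy.ne') x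
        rw [Subgroup.mem_bot] at hm
        rw [hm, one_mul] at h
        exact ⟨n, h⟩
    · right
      left
      refine ⟨M, hMb, hM.ne, fun x hx => ?_⟩
      have key : ∀ x : A, x ∉ M → 1 ≤ x → ∀ v ∈ M, v < x := by
        intro x hx hx1 v hv
        have h1 : x * v⁻¹ ∉ M := fun h => hx (by
          have := M.mul_mem h hv
          rwa [inv_mul_cancel_right] at this)
        have hne : v ≠ x := by
          rintro rfl
          exact hx hv
        rcases hcmp _ h1 with h | h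
        · exact lt_of_le_of_ne (one_le_mul_inv'.1 h) hne
        · exact absurd (hM.idl.conv x v hx1 (mul_inv_le_one_iff.1 h) hv) hx
      rcases hcmp x hx with h | h
      · exact Or.inl (key x hx h)
      · right
        intro v hv
        have h2 := key x⁻¹ (fun h' => hx (by simpa using M.inv_mem h'))
          (Left.one_le_inv_iff.2 h) v⁻¹ (M.inv_mem hv)
        exact inv_lt_inv_iff.1 h2
  · right
    right
    refine product (Pl {a}) (Pl (Pl {a} : Set A)) (Pl_idl _) (Pl_idl _)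
      (fun x h1 h2 => Pl_disj (Pl_idl _) h1 h2) hJ hP ?_
    intro h
    have h2 := mem_Pl_Pl ha
    rw [h, Subgroup.mem_bot] at h2
    rw [h2] at haM
    exact haM M.one_mem

end Pool.Agent.Y409.AB
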